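import Pool.Agent.Helper95.HV.Stmts
import Pool.Agent.Helper95.PM.MOMM

/-!
# Sum over the scales (row SUMZ)
-/

set_option autoImplicit false

namespace Pool.Agent.Helper81.HV

open MeasureTheory Filter Pool.Agent.Helper95 Pool.Agent.Helper95.PW Pool.Agent.Helper95.LN
open Pool.Agent.Helper95.HV

/-- summation over the dyadic scales -/
theorem sumz_abs {N C1 C2 q : ℝ} (hN : 1 ≤ N) (hC1 : 0 < C1) (hC2 : 0 < C2)
    (hq : q = (2:ℝ) ^ (-(1 / 5) : ℝ)) (a b : ℝ → ℝ) (J : ℕ)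
    (h1 : ∀ r : ℝ, 0 < r → 2 * r ≤ 2 ^ J / N → b r ^ 2 ≤
      C1 * ((1 + (N ^ (7 / 3 : ℝ) * (2 * r) ^ 2) ^ (3 / 5 : ℝ)) *
      (N ^ (7 / 3 : ℝ) / r ^ 2 + (1 + (N ^ (7 / 3 : ℝ) * (2 * r) ^ 2) ^ (3 / 5 : ℝ)) / r ^ 4)))
    (h2 : a (1 / N) ^ 2 ≤ C2 * ((1 + (N ^ (7 / 3 : ℝ) * (1 / N) ^ 2) ^ (3 / 5 : ℝ)) *
      (N ^ (7 / 3 : ℝ) / (1 / N) ^ 2 + (1 + (N ^ (7 / 3 : ℝ) * (1 / N) ^ 2) ^ (3 / 5 : ℝ)) /
        (1 / N) ^ 4 + N ^ (13 / 3 : ℝ))))
    (h3 : ∀ r : ℝ, 0 < r → 2 * r ≤ 2 ^ J / N →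
      Real.sqrt (a (2 * r)) ≤ Real.sqrt (b r) + Real.sqrt (a r)) :
    Real.sqrt (a (2 ^ J / N)) ≤
      (Real.sqrt (Real.sqrt (80 * C2)) + Real.sqrt (Real.sqrt (80 * C1)) / (1 - q)) *
        N ^ (17 / 15 : ℝ) := by
  have hN0 : 0 < N := by linarith
  have hq0 : 0 < q := by rw [hq]; positivity
  have hq1 : q < 1 := by
    rw [hq]
    exact Real.rpow_lt_one_of_one_lt_of_neg (by norm_num) (by norm_num)
  set c1 : ℝ := Real.sqrt (Real.sqrt (80 * C2)) with hc1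
  set c2 : ℝ := Real.sqrt (Real.sqrt (80 * C1)) with hc2
  have hc1p : 0 < c1 := by positivity
  have hc2p : 0 < c2 := by positivity
  have hW : 0 < N ^ (17 / 15 : ℝ) := Real.rpow_pos_of_pos hN0 _
  -- the inner ball
  have hin : Real.sqrt (a (1 / N)) ≤ c1 * N ^ (17 / 15 : ℝ) := by
    have h2 := MOM2_num0 hN hC2 h2
    refine (Real.sqrt_le_sqrt h2).trans (le_of_eq ?_)
    rw [Real.sqrt_mul (Real.sqrt_nonneg _), hc1]
    congr 1
    rw [Real.sqrt_eq_rpow, ← Real.rpow_mul hN0.le]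
    norm_num
  -- one shell
  have hsh : ∀ r : ℝ, 1 / N ≤ 2 * r → 0 < r → 2 * r ≤ 2 ^ J / N →
      Real.sqrt (a (2 * r)) ≤ c2 * (N ^ (14 / 15 : ℝ) * (2 * r) ^ (-(1 / 5) : ℝ)) +
        Real.sqrt (a r) := by
    intro r hR1 hr0 hrJ
    have hR0 : 0 < 2 * r := by linarith
    have g1 := h1 r hr0 hrJ
    have g2 := MOM2_num hN hC1 hR1 (by linarith : 2 * r / 2 ≤ r) g1
    refine (h3 r hr0 hrJ).trans (add_le_add_left ?_ _)
    refine (Real.sqrt_le_sqrt g2).trans (le_of_eq ?_)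
    have hs : Real.sqrt (N ^ (28 / 15 : ℝ) * (2 * r) ^ (-(2 / 5) : ℝ)) =
        N ^ (14 / 15 : ℝ) * (2 * r) ^ (-(1 / 5) : ℝ) := by
      rw [Real.sqrt_mul (Real.rpow_nonneg hN0.le _), Real.sqrt_eq_rpow, Real.sqrt_eq_rpow,
        ← Real.rpow_mul hN0.le, ← Real.rpow_mul hR0.le]
      norm_num
    rw [Real.sqrt_mul (Real.sqrt_nonneg _), hc2, hs]
  have hpw : ∀ (j : ℕ) (R : ℝ), R = 2 ^ j / N →
      N ^ (14 / 15 : ℝ) * R ^ (-(1 / 5) : ℝ) = N ^ (17 / 15 : ℝ) * q ^ j := by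
    intro j R hR
    have h2 : R ^ (-(1 / 5) : ℝ) = q ^ j * N ^ (1 / 5 : ℝ) := by
      rw [hR, Real.div_rpow (by positivity) hN0.le, hq, ← Real.rpow_natCast,
        ← Real.rpow_natCast, ← Real.rpow_mul (by norm_num), ← Real.rpow_mul (by norm_num),
        div_eq_mul_inv, ← Real.rpow_neg hN0.le]
      congr 2
      · ring
      · ring
    rw [h2]
    calc N ^ (14 / 15 : ℝ) * (q ^ j * N ^ (1 / 5 : ℝ)) =
        (N ^ (14 / 15 : ℝ) * N ^ (1 / 5 : ℝ)) * q ^ j := by ring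
      _ = N ^ (17 / 15 : ℝ) * q ^ j := by
          rw [← Real.rpow_add hN0]; norm_num
  -- induction
  have hind : ∀ j : ℕ, j ≤ J → Real.sqrt (a (2 ^ j / N)) ≤ c1 * N ^ (17 / 15 : ℝ) +
        c2 * N ^ (17 / 15 : ℝ) * ∑ i ∈ Finset.range (j + 1), q ^ i := by
    intro j
    induction j with
    | zero =>
      intro _
      simp only [zero_add, Finset.range_one, Finset.sum_singleton, pow_zero, mul_one]
      have : 0 ≤ c2 * N ^ (17 / 15 : ℝ) := by positivity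
      linarith
    | succ j ih =>
      intro hj
      have e : (2:ℝ) ^ (j + 1) / N = 2 * (2 ^ j / N) := by ring
      have hr0 : (0:ℝ) < 2 ^ j / N := by positivity
      have g1 : 1 / N ≤ 2 * (2 ^ j / N) := by
        rw [← e]
        gcongr
        exact one_le_pow₀ (by norm_num)
      have g2 : 2 * (2 ^ j / N) ≤ 2 ^ J / N := by
        rw [← e]
        gcongr
        · norm_num
      have g3 := hsh (2 ^ j / N) g1 hr0 g2
      have g4 := ih (by omega)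
      have g5 := hpw (j + 1) (2 * (2 ^ j / N)) e.symm
      rw [g5] at g3
      rw [Finset.sum_range_succ, e]
      nlinarith
  have g1 := hind J le_rfl
  have g2 : ∑ i ∈ Finset.range (J + 1), q ^ i ≤ 1 / (1 - q) := by
    rw [geom_sum_eq hq1.ne]
    rw [← neg_div_neg_eq, neg_sub, neg_sub]
    have : 0 < 1 - q := by linarith
    gcongr
    have := pow_pos hq0 (J + 1)
    linarith
  have g3 : c2 * N ^ (17 / 15 : ℝ) * ∑ i ∈ Finset.range (J + 1), q ^ i ≤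
      c2 * N ^ (17 / 15 : ℝ) * (1 / (1 - q)) := by gcongr
  refine g1.trans ?_
  have e : (c1 + c2 / (1 - q)) * N ^ (17 / 15 : ℝ) = c1 * N ^ (17 / 15 : ℝ) +
      c2 * N ^ (17 / 15 : ℝ) * (1 / (1 - q)) := by ring
  rw [e]
  linarith

theorem SUMZ (h1 : ST_PSZ) (h2 : ST_PIZ) (h3 : ST_PRZ) (h4 : ST_FLD) : ST_SUMZ := by
  intro d hd hd1
  obtain ⟨C1, hC1, hP⟩ := h1 d hd hd1
  obtain ⟨C2, hC2, hI⟩ := h2 d hd hd1
  obtain ⟨C3, hC3, hR⟩ := h3 d hd hd1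
  obtain ⟨K, hK, hF⟩ := h4
  obtain ⟨q, hq⟩ : ∃ q : ℝ, q = (2:ℝ) ^ (-(1 / 5) : ℝ) := ⟨_, rfl⟩
  have hq1 : q < 1 := by
    rw [hq]
    exact Real.rpow_lt_one_of_one_lt_of_neg (by norm_num) (by norm_num)
  have hq2 : 0 < 1 - q := by linarith
  obtain ⟨D, hD⟩ : ∃ D : ℝ, D = Real.sqrt (Real.sqrt (80 * C2)) +
    Real.sqrt (Real.sqrt (80 * C1)) / (1 - q) := ⟨_, rfl⟩
  have hDp : 0 < D := by rw [hD]; positivity
  obtain ⟨c3, hc3⟩ : ∃ c3 : ℝ, c3 = Real.sqrt (Real.sqrt (2 * C3)) := ⟨_, rfl⟩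
  have hc3p : 0 < c3 := by rw [hc3]; positivity
  obtain ⟨c4, hc4⟩ : ∃ c4 : ℝ, c4 = (8 / d) ^ (17 / 15 : ℝ) := ⟨_, rfl⟩
  have hc4p : 0 < c4 := by rw [hc4]; positivity
  refine ⟨3 * (c3 + D * c4) ^ 2, by positivity, ?_⟩
  intro z E n M X Z φ G hDat hM hE hG hlog
  have hz1 := hDat.z1
  have hz0 : 0 < z := by linarith
  have hM1 : (1:ℝ) ≤ M := by exact_mod_cast hM
  have hM0 : (0:ℝ) < M := by linarith
  obtain ⟨J, hJ1, hJ2⟩ := exists_nat_pow_near hz1 (by norm_num : (1:ℝ) < 2)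
  obtain ⟨N, hNdef⟩ : ∃ N : ℝ, N = 2 ^ J * (8 / d) := ⟨_, rfl⟩
  have hJp : (0:ℝ) < 2 ^ J := by positivity
  have h8 : 8 ≤ 8 / d := by
    rw [le_div_iff₀ hd]
    nlinarith
  have hzN : z ≤ N := by
    rw [pow_succ] at hJ2
    rw [hNdef]
    nlinarith
  have hNz : N ≤ (8 / d) * z := by
    rw [hNdef, mul_comm]
    exact mul_le_mul_of_nonneg_left hJ1 (by positivity)
  have hN1 : 1 ≤ N := hz1.trans hzN
  have hN0 : 0 < N := by linarith
  have hJN : 2 ^ J / N = d / 8 := by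
    rw [hNdef]
    field_simp
  have hd8 : d / 8 ≤ d / 4 := by linarith
  have w1 : z ^ (7 / 3 : ℝ) ≤ N ^ (7 / 3 : ℝ) := Real.rpow_le_rpow hz0.le hzN (by norm_num)
  have w2 : z ^ (13 / 3 : ℝ) ≤ N ^ (13 / 3 : ℝ) := Real.rpow_le_rpow hz0.le hzN (by norm_num)
  have z73 : 0 < z ^ (7 / 3 : ℝ) := Real.rpow_pos_of_pos hz0 _
  have z133 : 0 < z ^ (13 / 3 : ℝ) := Real.rpow_pos_of_pos hz0 _
  have hsc : ∀ (m : Fin 3) (r : ℝ), 0 < r → r ≤ d / 4 → Scale (gN X m r) K r :=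
    fun m r hr hr4 => (hF M X d r r m hd hDat.sep hr le_rfl hr4).1
  have key : ∀ m : Fin 3, Real.sqrt (PW.sq (PG (gN X m (d / 8)) φ G)) ≤
      (D * Real.sqrt M) * N ^ (17 / 15 : ℝ) := by
    intro m
    have h := sumz_abs (N := N) (C1 := C1 * (M : ℝ) ^ 2) (C2 := C2 * (M : ℝ) ^ 2) (q := q) hN1
      (by positivity) (by positivity) hq (fun r => PW.sq (PG (gN X m r) φ G))
      (fun r => PW.sq (PG (fun y => gN X m (2 * r) y - gN X m r y) φ G)) J ?_ ?_ ?_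
    · rw [hJN] at h
      refine h.trans (le_of_eq ?_)
      have hs : ∀ C : ℝ, 0 < C → Real.sqrt (Real.sqrt (80 * (C * (M : ℝ) ^ 2))) =
          Real.sqrt (Real.sqrt (80 * C)) * Real.sqrt M := by
        intro C hC
        have e : 80 * (C * (M : ℝ) ^ 2) = (80 * C) * (M : ℝ) ^ 2 := by ring
        rw [e, Real.sqrt_mul (by positivity), Real.sqrt_sq (by positivity),
          Real.sqrt_mul (by positivity)]
      rw [hs C1 hC1, hs C2 hC2, hD]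
      ring
    · intro r hr hrJ
      rw [hJN] at hrJ
      have g := hP z E r _ n M X Z φ G m hDat hM hE hG hr (hrJ.trans hd8) rfl
      refine g.trans ?_
      have hν : 1 + (z ^ (7 / 3 : ℝ) * r ^ 2) ^ (3 / 5 : ℝ) ≤
          1 + (N ^ (7 / 3 : ℝ) * (2 * r) ^ 2) ^ (3 / 5 : ℝ) := by
        have e1 : z ^ (7 / 3 : ℝ) * r ^ 2 ≤ N ^ (7 / 3 : ℝ) * (2 * r) ^ 2 := by
          have : r ^ 2 ≤ (2 * r) ^ 2 := by nlinarith [sq_nonneg r]
          exact mul_le_mul w1 this (sq_nonneg r) (by positivity)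
        have e2 := Real.rpow_le_rpow (by positivity) e1 (by norm_num : (0:ℝ) ≤ 3 / 5)
        linarith
      have hν0 : 0 ≤ 1 + (z ^ (7 / 3 : ℝ) * r ^ 2) ^ (3 / 5 : ℝ) := by positivity
      gcongr
    · have hr : 0 < 1 / N := by positivity
      have hr4 : 1 / N ≤ d / 4 := by
        have e1 : 1 / N ≤ 2 ^ J / N := by
          gcongr
          exact one_le_pow₀ (by norm_num)
        rw [hJN] at e1
        exact e1.trans hd8
      have g := hI z E (1 / N) _ n M X Z φ G m hDat hM hE hG hr hr4 rfl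
      refine g.trans ?_
      have hν : 1 + (z ^ (7 / 3 : ℝ) * (1 / N) ^ 2) ^ (3 / 5 : ℝ) ≤
          1 + (N ^ (7 / 3 : ℝ) * (1 / N) ^ 2) ^ (3 / 5 : ℝ) := by
        have e1 : z ^ (7 / 3 : ℝ) * (1 / N) ^ 2 ≤ N ^ (7 / 3 : ℝ) * (1 / N) ^ 2 :=
          mul_le_mul_of_nonneg_right w1 (sq_nonneg _)
        have e2 := Real.rpow_le_rpow (by positivity) e1 (by norm_num : (0:ℝ) ≤ 3 / 5)
        linarith
      have hν0 : 0 ≤ 1 + (z ^ (7 / 3 : ℝ) * (1 / N) ^ 2) ^ (3 / 5 : ℝ) := by positivity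
      gcongr
    · intro r hr hrJ
      rw [hJN] at hrJ
      have c1 := hsc m (2 * r) (by linarith) (hrJ.trans hd8)
      have c2 := hsc m r hr (by linarith)
      have c3' := (hF M X d r (2 * r) m hd hDat.sep hr (by linarith) (hrJ.trans hd8)).2.1
      rw [MOM2_PG_split c1.sm c2.sm φ G]
      exact MOM2_tri _ _ (MOMM_memLp c3' hG.lp hG.lpG) (MOMM_memLp c2 hG.lp hG.lpG)
  have hm : ∀ m : Fin 3, PW.sq (fun s x => ∑ k, G k m s x) ≤
      (c3 + D * c4) ^ 2 * (M * z ^ (34 / 15 : ℝ)) := by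
    intro m
    have c2 := hsc m (d / 8) (by positivity) hd8
    have mG : ∀ s, MemLp (fun x => ∑ k, G k m s x) 2 := fun s =>
      memLp_finsetSum _ fun k _ => hG.lpG k m s
    have mP : ∀ s, MemLp (PG (gN X m (d / 8)) φ G s) 2 := MOMM_memLp c2 hG.lp hG.lpG
    have t1 := MOM2_tri (fun s x => (∑ k, G k m s x) - PG (gN X m (d / 8)) φ G s x)
      (PG (gN X m (d / 8)) φ G) (fun s => (mG s).sub (mP s)) mP
    simp only [sub_add_cancel] at t1
    have t2 := key m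
    have t3 : N ^ (17 / 15 : ℝ) ≤ c4 * z ^ (17 / 15 : ℝ) := by
      rw [hc4, ← Real.mul_rpow (by positivity) hz0.le]
      exact Real.rpow_le_rpow hN0.le hNz (by norm_num)
    have g := hR z E n M X Z φ G m hDat hM hE hG
    have g2 : PW.sq (fun s x => (∑ k, G k m s x) - PG (gN X m (d / 8)) φ G s x) ^ 2 ≤
        (2 * C3) * (M * z ^ (34 / 15 : ℝ)) ^ 2 := by
      refine g.trans ?_
      have e1 : z ^ (10 / 3 : ℝ) * (1 + Real.log M) ≤ 2 * z ^ (68 / 15 : ℝ) := by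
        have f1 : 1 + Real.log M ≤ 2 * z := by linarith
        have f2 : z ^ (10 / 3 : ℝ) * (1 + Real.log M) ≤ z ^ (10 / 3 : ℝ) * (2 * z) :=
          mul_le_mul_of_nonneg_left f1 (Real.rpow_nonneg hz0.le _)
        have f3 : z ^ (10 / 3 : ℝ) * z = z ^ (13 / 3 : ℝ) := by
          nth_rewrite 2 [← Real.rpow_one z]
          rw [← Real.rpow_add hz0]
          norm_num
        have f4 : z ^ (13 / 3 : ℝ) ≤ z ^ (68 / 15 : ℝ) :=
          Real.rpow_le_rpow_of_exponent_le hz1 (by norm_num)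
        nlinarith
      have e2 : (z ^ (34 / 15 : ℝ)) ^ 2 = z ^ (68 / 15 : ℝ) := by
        rw [← Real.rpow_natCast, ← Real.rpow_mul hz0.le]
        norm_num
      rw [mul_pow, e2]
      have e3 : C3 * (M : ℝ) ^ 2 * (z ^ (10 / 3 : ℝ) * (1 + Real.log M)) ≤
          C3 * (M : ℝ) ^ 2 * (2 * z ^ (68 / 15 : ℝ)) :=
        mul_le_mul_of_nonneg_left e1 (by positivity)
      linarith
    have sq0 : 0 ≤ PW.sq (fun s x => (∑ k, G k m s x) - PG (gN X m (d / 8)) φ G s x) :=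
      MOM2_sq_nonneg _
    have zp : 0 < z ^ (34 / 15 : ℝ) := Real.rpow_pos_of_pos hz0 _
    have g3 : Real.sqrt (PW.sq (fun s x => (∑ k, G k m s x) -
        PG (gN X m (d / 8)) φ G s x)) ≤ c3 * (Real.sqrt M * z ^ (17 / 15 : ℝ)) := by
      have e1 := Real.sqrt_le_sqrt g2
      rw [Real.sqrt_sq sq0, Real.sqrt_mul (by positivity), Real.sqrt_sq (by positivity)] at e1
      have e2 := Real.sqrt_le_sqrt e1
      refine e2.trans (le_of_eq ?_)
      have e4 : Real.sqrt (z ^ (34 / 15 : ℝ)) = z ^ (17 / 15 : ℝ) := by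
        rw [Real.sqrt_eq_rpow, ← Real.rpow_mul hz0.le]
        norm_num
      rw [Real.sqrt_mul (Real.sqrt_nonneg _), hc3, Real.sqrt_mul hM0.le, e4]
    have g4 : Real.sqrt (PW.sq (fun s x => ∑ k, G k m s x)) ≤
        (c3 + D * c4) * (Real.sqrt M * z ^ (17 / 15 : ℝ)) := by
      have e1 : D * Real.sqrt M * N ^ (17 / 15 : ℝ) ≤
          D * Real.sqrt M * (c4 * z ^ (17 / 15 : ℝ)) :=
        mul_le_mul_of_nonneg_left t3 (by positivity)
      have e2 : (c3 + D * c4) * (Real.sqrt M * z ^ (17 / 15 : ℝ)) =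
          c3 * (Real.sqrt M * z ^ (17 / 15 : ℝ)) +
            D * Real.sqrt M * (c4 * z ^ (17 / 15 : ℝ)) := by ring
      rw [e2]
      linarith
    have g5 := (Real.sqrt_le_iff.mp g4).2
    refine g5.trans (le_of_eq ?_)
    rw [mul_pow, mul_pow, Real.sq_sqrt hM0.le, ← Real.rpow_natCast (z ^ (17 / 15 : ℝ)),
      ← Real.rpow_mul hz0.le]
    norm_num
  have hfin : mom G ≤ 3 * ((c3 + D * c4) ^ 2 * (M * z ^ (34 / 15 : ℝ))) := by
    unfold mom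
    refine (Finset.sum_le_sum fun i _ => hm i).trans (le_of_eq ?_)
    simp
  linarith

end Pool.Agent.Helper81.HV
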